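import Pool.Agent.Helper19.Un.D4Stmts

set_option autoImplicit false

/-!
# MP_8410ab_nt, unitary family: DDUAL, the minimum of the dual lattice
-/

namespace Pool.Agent.Helper19.Un

open MeasureTheory Topology
open scoped ComplexConjugate

theorem ddual_inner (ξ : E 2) (x y : ℂ) : (inner ℂ ξ (!₂[x, y] : E 2)).re =
    ((ξ 0).re * x.re + (ξ 0).im * x.im) + ((ξ 1).re * y.re + (ξ 1).im * y.im) := by
  rw [PiLp.inner_apply, Fin.sum_univ_two]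
  simp [Complex.mul_re]
  ring

theorem st_DDUAL : ST_DDUAL := by
  intro ξ hξ h
  obtain ⟨k0, h0⟩ := h 0
  obtain ⟨k1, h1⟩ := h 1
  obtain ⟨k2, h2⟩ := h 2
  obtain ⟨k3, h3⟩ := h 3
  have s3 : Real.sqrt 3 * Real.sqrt 3 = 3 := Real.mul_self_sqrt (by norm_num)
  have s2 : Real.sqrt 2 * Real.sqrt 2 = 2 := Real.mul_self_sqrt (by norm_num)
  have e0 : bD4 0 = (!₂[1, (Real.sqrt 2 : ℂ)] : E 2) := rfl
  have e1 : bD4 1 = (!₂[om, (Real.sqrt 2 : ℂ) * om] : E 2) := rfl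
  have e2 : bD4 2 = (!₂[th, 0] : E 2) := rfl
  have e3 : bD4 3 = (!₂[th * om, 0] : E 2) := rfl
  rw [e0, ddual_inner] at h0
  rw [e1, ddual_inner] at h1
  rw [e2, ddual_inner] at h2
  rw [e3, ddual_inner] at h3
  simp only [om, th, Complex.mul_re, Complex.mul_im, Complex.ofReal_re, Complex.ofReal_im,
    Complex.one_re, Complex.one_im, Complex.zero_re, Complex.zero_im] at h0 h1 h2 h3
  have hn : ‖ξ‖ ^ 2 = ((ξ 0).re * (ξ 0).re + (ξ 0).im * (ξ 0).im) +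
      ((ξ 1).re * (ξ 1).re + (ξ 1).im * (ξ 1).im) := by
    rw [EuclideanSpace.norm_sq_eq, Fin.sum_univ_two, Complex.sq_norm, Complex.sq_norm,
      Complex.normSq_apply, Complex.normSq_apply]
  generalize (ξ 0).re = a at h0 h1 h2 h3 hn
  generalize (ξ 0).im = b at h0 h1 h2 h3 hn
  generalize (ξ 1).re = c at h0 h1 h2 h3 hn
  generalize (ξ 1).im = d at h0 h1 h2 h3 hn
  generalize Real.sqrt 3 = r at s3 h1 h2 h3
  generalize Real.sqrt 2 = s at s2 h0 h1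
  have hb : (k2 : ℝ) = r * b := by linarith
  have ha : (k3 : ℝ) = -(3 / 2) * a - r / 2 * b := by
    linear_combination (-1) * h3 - (1 / 2) * a * s3
  have hc : (k0 : ℝ) = a + s * c := by linarith
  have hd : (k1 : ℝ) = -(a + s * c) / 2 + r / 2 * (b + s * d) := by
    linear_combination (-1) * h1
  have key : ‖ξ‖ ^ 2 = 2 / 3 * ((k3 ^ 2 + k2 * k3 + k2 ^ 2 + k0 ^ 2 + k1 ^ 2 + k0 * k3 + k0 * k1
      - k1 * k2 : ℤ) : ℝ) := by
    rw [hn]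
    push_cast
    rw [hb, ha, hc, hd]
    ring_nf
    have s3' : r ^ 2 = 3 := by rw [pow_two]; exact s3
    have s2' : s ^ 2 = 2 := by rw [pow_two]; exact s2
    rw [s3', s2']
    ring
  have hpos : 0 < ‖ξ‖ ^ 2 := by
    have := norm_pos_iff.mpr hξ
    positivity
  rw [key] at hpos ⊢
  have h5 : (0 : ℝ) < ((k3 ^ 2 + k2 * k3 + k2 ^ 2 + k0 ^ 2 + k1 ^ 2 + k0 * k3 + k0 * k1
      - k1 * k2 : ℤ) : ℝ) := by linarith
  have h6 : 0 < (k3 ^ 2 + k2 * k3 + k2 ^ 2 + k0 ^ 2 + k1 ^ 2 + k0 * k3 + k0 * k1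
      - k1 * k2 : ℤ) := by exact_mod_cast h5
  have h7 : 1 ≤ (k3 ^ 2 + k2 * k3 + k2 ^ 2 + k0 ^ 2 + k1 ^ 2 + k0 * k3 + k0 * k1
      - k1 * k2 : ℤ) := h6
  have h8 : (1 : ℝ) ≤ ((k3 ^ 2 + k2 * k3 + k2 ^ 2 + k0 ^ 2 + k1 ^ 2 + k0 * k3 + k0 * k1
      - k1 * k2 : ℤ) : ℝ) := by exact_mod_cast h7
  linarith

end Pool.Agent.Helper19.Un
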