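import Pool.Agent.Helper19.Un.Stmts

set_option autoImplicit false

/-!
# MP_8410ab_nt, unitary family: STRIP, unfolding over the cusp cell
-/

namespace Pool.Agent.Helper19.Un

open MeasureTheory Topology
open scoped ComplexConjugate

variable {m : ℕ}

/-! ### the cell -/

/-- the half open cell -/
def strip_cell (β : Fin (2 * m) → E m) (c : ℝ) : Set (Pt m) :=
  {p : Pt m | ∃ (x : (Fin (2 * m) → ℝ) × ℝ) (u : ℝ), (∀ i, x.1 i ∈ Set.Ico (0 : ℝ) 1) ∧
      x.2 ∈ Set.Ico (0 : ℝ) 1 ∧ 0 < u ∧ p = cellpt β c x u}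

theorem strip_finrank : Module.finrank ℝ (E m) = 2 * m := by
  rw [finrank_real_of_complex, finrank_euclideanSpace_fin]

theorem strip_measurable_cell (β : Fin (2 * m) → E m) (c : ℝ) (hc : 0 < c)
    (hβ : LinearIndependent ℝ β) : MeasurableSet (strip_cell β c) := by
  have hspan : Submodule.span ℝ (Set.range β) = ⊤ :=
    hβ.span_eq_top_of_card_eq_finrank' (by rw [Fintype.card_fin, strip_finrank])
  set b : Module.Basis (Fin (2 * m)) ℝ (E m) := Module.Basis.mk hβ (le_of_eq hspan.symm) with hb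
  have hbi : ∀ i, b i = β i := fun i => by
    rw [hb, Module.Basis.mk_apply]
  have hset : strip_cell β c = {p : Pt m | (∀ i, b.repr p.2 i ∈ Set.Ico (0 : ℝ) 1) ∧
      p.1.im / c ∈ Set.Ico (0 : ℝ) 1 ∧ 0 < hgt p} := by
    ext p
    constructor
    · rintro ⟨x, u, h1, h2, h3, rfl⟩
      refine ⟨fun i => ?_, ?_, ?_⟩
      · have : b.repr (∑ j, x.1 j • β j) i = x.1 i := by
          have h4 : ∑ j, x.1 j • β j = ∑ j, x.1 j • b j := by
            refine Finset.sum_congr rfl fun j _ => ?_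
            rw [hbi]
          rw [h4, Module.Basis.repr_sum_self]
        show b.repr (∑ j, x.1 j • β j) i ∈ Set.Ico (0 : ℝ) 1
        rw [this]
        exact h1 i
      · show (c * x.2) / c ∈ Set.Ico (0 : ℝ) 1
        rw [mul_div_cancel_left₀ _ hc.ne']
        exact h2
      · rw [hgt_cellpt]
        exact h3
    · rintro ⟨h1, h2, h3⟩
      refine ⟨(fun i => b.repr p.2 i, p.1.im / c), hgt p, h1, h2, h3, ?_⟩
      have hs : ∑ i, b.repr p.2 i • β i = p.2 := by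
        have h4 : ∑ i, b.repr p.2 i • β i = ∑ i, b.repr p.2 i • b i := by
          refine Finset.sum_congr rfl fun j _ => ?_
          rw [hbi]
        rw [h4, Module.Basis.sum_repr]
      unfold cellpt
      refine Prod.ext (Complex.ext ?_ ?_) ?_
      · show p.1.re = -(hgt p + ‖∑ i, b.repr p.2 i • β i‖ ^ 2) / 2
        rw [hs]
        unfold hgt
        ring
      · show p.1.im = c * (p.1.im / c)
        field_simp
      · show p.2 = ∑ i, b.repr p.2 i • β i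
        rw [hs]
  rw [hset]
  have m1 : Measurable fun p : Pt m => p.1.im / c :=
    (Complex.measurable_im.comp measurable_fst).div_const c
  have m2 : ∀ i, Measurable fun p : Pt m => b.repr p.2 i := by
    intro i
    have h5 : Continuous fun v : E m => b.repr v i := by
      have := LinearMap.continuous_of_finiteDimensional (b.coord i)
      exact this
    exact h5.measurable.comp measurable_snd
  have e : {p : Pt m | (∀ i, b.repr p.2 i ∈ Set.Ico (0 : ℝ) 1) ∧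
      p.1.im / c ∈ Set.Ico (0 : ℝ) 1 ∧ 0 < hgt p} =
      (⋂ i, {p : Pt m | b.repr p.2 i ∈ Set.Ico (0 : ℝ) 1}) ∩
        ({p : Pt m | p.1.im / c ∈ Set.Ico (0 : ℝ) 1} ∩ SD m) := by
    ext p
    simp only [Set.mem_ofPred_eq, Set.mem_inter_iff, Set.mem_iInter]
    rfl
  rw [e]
  exact (MeasurableSet.iInter fun i => m2 i measurableSet_Ico).inter
    ((m1 measurableSet_Ico).inter measurableSet_SD)

theorem strip_cell_SD {β : Fin (2 * m) → E m} {c : ℝ} {p : Pt m} (h : p ∈ strip_cell β c) :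
    p ∈ SD m := by
  obtain ⟨x, u, -, -, hu, rfl⟩ := h
  show 0 < hgt _
  rw [hgt_cellpt]
  exact hu

theorem strip_cell_bound {β : Fin (2 * m) → E m} {c : ℝ} (hc : 0 < c) {p : Pt m}
    (h : p ∈ strip_cell β c) : ‖p.2‖ ≤ (∑ i, ‖β i‖) + c ∧ |p.1.im| ≤ (∑ i, ‖β i‖) + c := by
  obtain ⟨x, u, h1, h2, -, rfl⟩ := h
  have hs : 0 ≤ ∑ i, ‖β i‖ := Finset.sum_nonneg fun i _ => norm_nonneg _
  constructor
  · show ‖∑ i, x.1 i • β i‖ ≤ _
    have h3 : ‖∑ i, x.1 i • β i‖ ≤ ∑ i, ‖β i‖ := by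
      refine (norm_sum_le _ _).trans (Finset.sum_le_sum fun i _ => ?_)
      rw [norm_smul, Real.norm_eq_abs, abs_of_nonneg (h1 i).1]
      have := mul_le_mul_of_nonneg_right (h1 i).2.le (norm_nonneg (β i))
      linarith
    linarith
  · show |c * x.2| ≤ _
    rw [abs_of_nonneg (mul_nonneg hc.le h2.1)]
    have : c * x.2 ≤ c * 1 := mul_le_mul_of_nonneg_left h2.2.le hc.le
    linarith

theorem strip_continuous_cellpt (β : Fin (2 * m) → E m) (c : ℝ) (u : ℝ) :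
    Continuous fun x : (Fin (2 * m) → ℝ) × ℝ => cellpt β c x u := by
  have hlin : Continuous fun x : (Fin (2 * m) → ℝ) × ℝ => ∑ i, x.1 i • β i := by
    refine continuous_finsetSum _ fun i _ => ?_
    exact ((continuous_apply i).comp continuous_fst).smul continuous_const
  refine Continuous.prodMk ?_ hlin
  have h1 : (fun x : (Fin (2 * m) → ℝ) × ℝ =>
      (⟨-(u + ‖∑ i, x.1 i • β i‖ ^ 2) / 2, c * x.2⟩ : ℂ)) =
      fun x => ((-(u + ‖∑ i, x.1 i • β i‖ ^ 2) / 2 : ℝ) : ℂ) + ((c * x.2 : ℝ) : ℂ) * Complex.I := by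
    funext x
    apply Complex.ext
    · simp only [Complex.add_re, Complex.mul_re, Complex.ofReal_re, Complex.ofReal_im,
        Complex.I_re, Complex.I_im]
      ring
    · simp only [Complex.add_im, Complex.mul_im, Complex.ofReal_re, Complex.ofReal_im,
        Complex.I_re, Complex.I_im]
      ring
  rw [h1]
  have h2 : Continuous fun x : (Fin (2 * m) → ℝ) × ℝ =>
      (-(u + ‖∑ i, x.1 i • β i‖ ^ 2) / 2 : ℝ) :=
    ((continuous_const.add (hlin.norm.pow 2)).neg).div_const 2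
  have h3 : Continuous fun x : (Fin (2 * m) → ℝ) × ℝ => (c * x.2 : ℝ) :=
    continuous_const.mul continuous_snd
  exact (Complex.continuous_ofReal.comp h2).add
    ((Complex.continuous_ofReal.comp h3).mul continuous_const)

/-! ### the stabiliser of the cusp -/

/-- the stabiliser of the cusp vector `w0` -/
def strip_Sg (M : AddSubgroup (V m)) : Set (V m ≃ₗ[ℂ] V m) := {g | g ∈ Gam M ∧ g w0 = w0}

theorem strip_zero {N : ℂ → E m → Prop} {β : Fin (2 * m) → E m} {c : ℝ} (hC : Cusp N β c) :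
    N 0 0 := (hC.cen 0).mpr ⟨0, by simp⟩

theorem strip_T_inv_mul {N : ℂ → E m → Prop} {β : Fin (2 * m) → E m} {c : ℝ} (hC : Cusp N β c)
    {a : ℂ} {b : E m} (h : N a b) (g : V m ≃ₗ[ℂ] V m) :
    T (conj a) (-b) * (T a b * g) = g := by
  rw [T_inv (hC.norm a b h), inv_mul_cancel_left]

/-- the equivalence relation of translates -/
def strip_rel (M : AddSubgroup (V m)) {N : ℂ → E m → Prop} {β : Fin (2 * m) → E m} {c : ℝ}
    (hC : Cusp N β c) : Setoid (strip_Sg M) where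
  r σ τ := ∃ (a : ℂ) (b : E m), N a b ∧ (τ : V m ≃ₗ[ℂ] V m) = T a b * σ
  iseqv :=
    { refl := fun σ => ⟨0, 0, strip_zero hC, by rw [T_zero, one_mul]⟩
      symm := by
        rintro σ τ ⟨a, b, hab, h⟩
        refine ⟨conj a, -b, hC.inv a b hab, ?_⟩
        rw [h, strip_T_inv_mul hC hab]
      trans := by
        rintro σ τ ρ ⟨a, b, hab, h⟩ ⟨a', b', hab', h'⟩
        refine ⟨a' + a - inner ℂ b' b, b' + b, hC.mul a' b' a b hab' hab, ?_⟩
        rw [h', h, ← mul_assoc, T_mul] }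

/-- the set of classes -/
abbrev strip_Cls (M : AddSubgroup (V m)) {N : ℂ → E m → Prop} {β : Fin (2 * m) → E m} {c : ℝ}
    (hC : Cusp N β c) := Quotient (strip_rel M hC)

theorem strip_inv_w0 {M : AddSubgroup (V m)} {g : V m ≃ₗ[ℂ] V m} (hg : g ∈ strip_Sg M) :
    g⁻¹ w0 = w0 := by
  have : g⁻¹ (g w0) = w0 := g.symm_apply_apply w0
  rwa [hg.2] at this

theorem strip_height {M : AddSubgroup (V m)} {g : V m ≃ₗ[ℂ] V m} (hg : g ∈ strip_Sg M) {p : Pt m}
    (hp : p ∈ SD m) : hgt (act g p) = hgt p := by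
  have h1 := uval_act hg.1.1 w0 hp
  rw [strip_inv_w0 hg, uval_w0, uval_w0, one_div, one_div] at h1
  exact inv_injective h1

/-- base point -/
noncomputable def strip_p0 : Pt m := (-(1 / 2 : ℝ), 0)

theorem strip_hgt_p0 : hgt (strip_p0 : Pt m) = 1 := by
  unfold hgt strip_p0
  simp

theorem strip_p0_mem : (strip_p0 : Pt m) ∈ SD m := by
  show 0 < hgt strip_p0
  rw [strip_hgt_p0]
  exact one_pos

theorem strip_exists_cell (hD : ST_CELLD) {N : ℂ → E m → Prop} {β : Fin (2 * m) → E m} {c : ℝ}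
    (hC : Cusp N β c) {p : Pt m} (hp : p ∈ SD m) :
    ∃ (a : ℂ) (b : E m), N a b ∧ act (T a b) p ∈ strip_cell β c := by
  obtain ⟨ab, ⟨h1, h2⟩, -⟩ := hD m N β c hC p hp
  exact ⟨ab.1, ab.2, h1, h2⟩

theorem strip_cell_unique (hD : ST_CELLD) {N : ℂ → E m → Prop} {β : Fin (2 * m) → E m} {c : ℝ}
    (hC : Cusp N β c) {p : Pt m} (hp : p ∈ SD m) {a : ℂ} {b : E m} {a' : ℂ} {b' : E m}
    (h : N a b) (h' : N a' b') (h1 : act (T a b) p ∈ strip_cell β c)
    (h2 : act (T a' b') p ∈ strip_cell β c) : a = a' ∧ b = b' := by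
  have hu := (hD m N β c hC p hp).unique (y₁ := (a, b)) (y₂ := (a', b')) ⟨h, h1⟩ ⟨h', h2⟩
  exact ⟨congrArg Prod.fst hu, congrArg Prod.snd hu⟩

theorem strip_finite_Cls (hD : ST_CELLD) (hLF : ST_LF) {M : AddSubgroup (V m)} (hM : IsLat M)
    {N : ℂ → E m → Prop} {β : Fin (2 * m) → E m} {c : ℝ}
    (hC : Cusp N β c) (hN : ∀ a b, N a b → T a b ∈ Gam M) : Finite (strip_Cls M hC) := by
  obtain ⟨U, hU, -, hfin⟩ := hLF m M hM strip_p0 strip_p0_mem ((∑ i, ‖β i‖) + c) 1 one_pos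
  have hfin2 : Finite {γ : Gam M | ∃ q ∈ U, act γ q ∈ Sieg m ((∑ i, ‖β i‖) + c) 1} := hfin
  -- for every class choose a representative in the finite set
  have hex : ∀ d : strip_Cls M hC, ∃ σ : strip_Sg M, (Quotient.mk (strip_rel M hC) σ) = d ∧
      (act (σ : V m ≃ₗ[ℂ] V m) strip_p0) ∈ strip_cell β c := by
    intro d
    obtain ⟨σ, rfl⟩ := Quotient.exists_rep d
    obtain ⟨a, b, hab, hxc⟩ := strip_exists_cell hD hC
      (act_mem (σ.2.1.1) (strip_p0_mem (m := m)))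
    have hT := hN a b hab
    have hmem : T a b * (σ : V m ≃ₗ[ℂ] V m) ∈ strip_Sg M := by
      refine ⟨(Gam M).mul_mem hT σ.2.1, ?_⟩
      rw [LinearEquiv.mul_apply, σ.2.2, T_w0]
    refine ⟨⟨_, hmem⟩, Quotient.sound (s := strip_rel M hC) ?_, ?_⟩
    · exact (strip_rel M hC).symm ⟨a, b, hab, rfl⟩
    · show act (T a b * (σ : V m ≃ₗ[ℂ] V m)) strip_p0 ∈ strip_cell β c
      rw [act_mul _ σ.2.1.1 strip_p0_mem]
      exact hxc
  choose rep hrep1 hrep2 using hex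
  have hmem : ∀ d : strip_Cls M hC, (⟨(rep d : V m ≃ₗ[ℂ] V m), (rep d).2.1⟩ : Gam M) ∈
      {γ : Gam M | ∃ q ∈ U, act γ q ∈ Sieg m ((∑ i, ‖β i‖) + c) 1} := by
    intro d
    have hb := strip_cell_bound hC.cpos (hrep2 d)
    refine ⟨_, mem_of_mem_nhds hU, hb.1, hb.2, ?_⟩
    show 1 ≤ hgt (act (rep d : V m ≃ₗ[ℂ] V m) strip_p0)
    rw [strip_height (rep d).2 strip_p0_mem, strip_hgt_p0]
  have hinj : Function.Injective (fun d : strip_Cls M hC =>
      (⟨_, hmem d⟩ : {γ : Gam M | ∃ q ∈ U, act γ q ∈ Sieg m ((∑ i, ‖β i‖) + c) 1})) := by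
    intro d d' hcd
    have h1 := congrArg Subtype.val (congrArg Subtype.val hcd)
    have h2 : rep d = rep d' := Subtype.ext h1
    rw [← hrep1 d, ← hrep1 d', h2]
  exact Finite.of_injective _ hinj

theorem strip_nonempty_Cls (M : AddSubgroup (V m)) {N : ℂ → E m → Prop}
    {β : Fin (2 * m) → E m} {c : ℝ} (hC : Cusp N β c) : Nonempty (strip_Cls M hC) :=
  ⟨Quotient.mk (strip_rel M hC) ⟨1, (Gam M).one_mem, rfl⟩⟩

/-- the strip function -/
noncomputable def strip_fn (β : Fin (2 * m) → E m) (c : ℝ) (ψ : ℝ → ENNReal) : Pt m → ENNReal :=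
  Set.indicator (strip_cell β c) (fun p => ψ (hgt p))

theorem strip_sum_stab (hD : ST_CELLD) (hLF : ST_LF) {M : AddSubgroup (V m)} (hM : IsLat M)
    {N : ℂ → E m → Prop} {β : Fin (2 * m) → E m} {c : ℝ}
    (hC : Cusp N β c) (hN : ∀ a b, N a b → T a b ∈ Gam M)
    (ψ : ℝ → ENNReal) {p : Pt m} (hp : p ∈ SD m) :
    ∑' σ : strip_Sg M, strip_fn β c ψ (act (σ : V m ≃ₗ[ℂ] V m) p) =
      (Nat.card (strip_Cls M hC) : ENNReal) * ψ (hgt p) := by
  rw [← (Equiv.sigmaFiberEquiv (Quotient.mk (strip_rel M hC))).tsum_eq, ENNReal.tsum_sigma']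
  have hone : ∀ d : strip_Cls M hC, ∑' σ : {σ // Quotient.mk (strip_rel M hC) σ = d},
      strip_fn β c ψ (act (((Equiv.sigmaFiberEquiv (Quotient.mk (strip_rel M hC))) ⟨d, σ⟩ :
        strip_Sg M) : V m ≃ₗ[ℂ] V m) p) = ψ (hgt p) := by
    intro d
    obtain ⟨σ, rfl⟩ := Quotient.exists_rep d
    have hpos := act_mem σ.2.1.1 hp
    obtain ⟨a, b, hab, hxc⟩ := strip_exists_cell hD hC hpos
    have hT := hN a b hab
    have hmem : T a b * (σ : V m ≃ₗ[ℂ] V m) ∈ strip_Sg M := by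
      refine ⟨(Gam M).mul_mem hT σ.2.1, ?_⟩
      rw [LinearEquiv.mul_apply, σ.2.2, T_w0]
    have hcls : Quotient.mk (strip_rel M hC) (⟨_, hmem⟩ : strip_Sg M) =
        Quotient.mk (strip_rel M hC) σ :=
      Quotient.sound (s := strip_rel M hC) ((strip_rel M hC).symm ⟨a, b, hab, rfl⟩)
    rw [tsum_eq_single (⟨⟨_, hmem⟩, hcls⟩ :
      {τ // Quotient.mk (strip_rel M hC) τ = Quotient.mk (strip_rel M hC) σ})]
    · show strip_fn β c ψ (act (T a b * (σ : V m ≃ₗ[ℂ] V m)) p) = _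
      unfold strip_fn
      rw [Set.indicator_of_mem, strip_height hmem hp]
      rw [act_mul _ σ.2.1.1 hp]
      exact hxc
    · rintro ⟨τ, hτ⟩ hne
      show strip_fn β c ψ (act (τ : V m ≃ₗ[ℂ] V m) p) = 0
      obtain ⟨a', b', hab', hvτ⟩ := Quotient.exact (s := strip_rel M hC) hτ.symm
      rw [hvτ, act_mul _ σ.2.1.1 hp]
      unfold strip_fn
      rw [Set.indicator_of_notMem]
      intro hcell
      apply hne
      apply Subtype.ext
      apply Subtype.ext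
      show (τ : V m ≃ₗ[ℂ] V m) = T a b * (σ : V m ≃ₗ[ℂ] V m)
      obtain ⟨e1, e2⟩ := strip_cell_unique hD hC hpos hab' hab hcell hxc
      rw [hvτ, e1, e2]
  rw [tsum_congr hone]
  have : Finite (strip_Cls M hC) := strip_finite_Cls hD hLF hM hC hN
  have hfin : Fintype (strip_Cls M hC) := Fintype.ofFinite _
  rw [tsum_fintype, Finset.sum_const, nsmul_eq_mul, Finset.card_univ, Nat.card_eq_fintype_card]

/-- the cusp vector of a group element -/
noncomputable def strip_cusp {M : AddSubgroup (V m)} (γ : Gam M) : Orb M :=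
  ⟨((γ⁻¹ : Gam M) : V m ≃ₗ[ℂ] V m) w0, _, (γ⁻¹ : Gam M).2, rfl⟩

theorem strip_cusp_eq {M : AddSubgroup (V m)} {γ γ₁ : Gam M} (h : strip_cusp γ = strip_cusp γ₁) :
    (γ : V m ≃ₗ[ℂ] V m) * (γ₁ : V m ≃ₗ[ℂ] V m)⁻¹ ∈ strip_Sg M := by
  refine ⟨(Gam M).mul_mem γ.2 ((Gam M).inv_mem γ₁.2), ?_⟩
  have h1 : (γ : V m ≃ₗ[ℂ] V m)⁻¹ w0 = (γ₁ : V m ≃ₗ[ℂ] V m)⁻¹ w0 := congrArg Subtype.val h
  rw [LinearEquiv.mul_apply, ← h1]
  exact (γ : V m ≃ₗ[ℂ] V m).apply_symm_apply w0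

/-- the fibre of `strip_cusp` -/
noncomputable def strip_fib {M : AddSubgroup (V m)} (γ₁ : Gam M) :
    {γ : Gam M // strip_cusp γ = strip_cusp γ₁} ≃ strip_Sg M where
  toFun γ := ⟨_, strip_cusp_eq γ.2⟩
  invFun σ := ⟨⟨(σ : V m ≃ₗ[ℂ] V m) * γ₁, (Gam M).mul_mem σ.2.1 γ₁.2⟩, by
    apply Subtype.ext
    show ((σ : V m ≃ₗ[ℂ] V m) * (γ₁ : V m ≃ₗ[ℂ] V m))⁻¹ w0
      = (γ₁ : V m ≃ₗ[ℂ] V m)⁻¹ w0
    rw [mul_inv_rev, LinearEquiv.mul_apply, strip_inv_w0 σ.2]⟩
  left_inv γ := Subtype.ext (Subtype.ext (inv_mul_cancel_right _ _))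
  right_inv σ := Subtype.ext (mul_inv_cancel_right _ _)

theorem strip_sum_fibre (hD : ST_CELLD) (hLF : ST_LF) {M : AddSubgroup (V m)} (hM : IsLat M)
    {N : ℂ → E m → Prop} {β : Fin (2 * m) → E m} {c : ℝ}
    (hC : Cusp N β c) (hN : ∀ a b, N a b → T a b ∈ Gam M)
    (ψ : ℝ → ENNReal) {p : Pt m} (hp : p ∈ SD m) (γ₁ : Gam M) :
    ∑' γ : {γ : Gam M // strip_cusp γ = strip_cusp γ₁},
      strip_fn β c ψ (act (γ.1 : V m ≃ₗ[ℂ] V m) p)
      = (Nat.card (strip_Cls M hC) : ENNReal) * ψ (hgt (act (γ₁ : V m ≃ₗ[ℂ] V m) p)) := by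
  rw [← strip_sum_stab hD hLF hM hC hN ψ (act_mem γ₁.2.1 hp), ← (strip_fib γ₁).symm.tsum_eq]
  refine tsum_congr fun σ => ?_
  show strip_fn β c ψ (act ((σ : V m ≃ₗ[ℂ] V m) * (γ₁ : V m ≃ₗ[ℂ] V m)) p) = _
  rw [act_mul _ γ₁.2.1 hp]

theorem strip_one_div_uval {M : AddSubgroup (V m)} (γ : Gam M) {p : Pt m} (hp : p ∈ SD m) :
    1 / uval (strip_cusp γ : V m) p = hgt (act (γ : V m ≃ₗ[ℂ] V m) p) := by
  have h := uval_act γ.2.1 w0 hp
  rw [uval_w0] at h
  show 1 / uval ((γ : V m ≃ₗ[ℂ] V m)⁻¹ w0) p = _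
  rw [← h, one_div_one_div]

theorem strip_sum (hD : ST_CELLD) (hLF : ST_LF) {M : AddSubgroup (V m)} (hM : IsLat M)
    {N : ℂ → E m → Prop} {β : Fin (2 * m) → E m} {c : ℝ}
    (hC : Cusp N β c) (hN : ∀ a b, N a b → T a b ∈ Gam M)
    (ψ : ℝ → ENNReal) {p : Pt m} (hp : p ∈ SD m) :
    ∑' γ : Gam M, strip_fn β c ψ (act γ p)
      = (Nat.card (strip_Cls M hC) : ENNReal) * ∑' w : Orb M, ψ (1 / uval w p) := by
  rw [← (Equiv.sigmaFiberEquiv (strip_cusp (M := M))).tsum_eq, ENNReal.tsum_sigma',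
    ← ENNReal.tsum_mul_left]
  refine tsum_congr fun w => ?_
  obtain ⟨w, γ₀, hγ₀, hw⟩ := w
  have hrow : (⟨w, γ₀, hγ₀, hw⟩ : Orb M) = strip_cusp (⟨γ₀, hγ₀⟩⁻¹ : Gam M) := by
    apply Subtype.ext
    show w = ((γ₀⁻¹)⁻¹ : V m ≃ₗ[ℂ] V m) w0
    rw [inv_inv]
    exact hw
  rw [hrow]
  have h := strip_sum_fibre hD hLF hM hC hN ψ hp (⟨γ₀, hγ₀⟩⁻¹ : Gam M)
  rw [strip_one_div_uval _ hp]
  exact h

/-- strip unfolding -/
theorem st_STRIP (hLF : ST_LF) (hUNF : ST_UNF) (hD : ST_CELLD) (hI : ST_CELLI) : ST_STRIP := by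
  intro m M hM κ C a hK N β c hC hN
  obtain ⟨K0, hK0, hK1, hKint⟩ := hI m β c hC.cpos hC.li
  have hfin : Finite (strip_Cls M hC) := strip_finite_Cls hD hLF hM hC hN
  have hN0 : (Nat.card (strip_Cls M hC) : ENNReal) ≠ 0 := by
    have : Nonempty (strip_Cls M hC) := strip_nonempty_Cls M hC
    exact_mod_cast Nat.card_pos.ne'
  have hNt : (Nat.card (strip_Cls M hC) : ENNReal) ≠ ⊤ := ENNReal.natCast_ne_top _
  refine ⟨K0⁻¹ * Nat.card (strip_Cls M hC), mul_ne_zero (ENNReal.inv_ne_zero.2 hK1) hN0,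
    ENNReal.mul_ne_top (ENNReal.inv_ne_top.2 hK0) hNt, ?_⟩
  intro ψ F hψ hF hinv
  have hcm : MeasurableSet (strip_cell β c) := strip_measurable_cell β c hC.cpos hC.li
  have hψm : Measurable fun p : Pt m => ψ (hgt p) := hψ.comp measurable_hgt
  have hη : Measurable (strip_fn β c ψ) := hψm.indicator hcm
  have h1 := hUNF m M hM κ C a hK (strip_fn β c ψ) F hη hF hinv
  have h2 : ∫⁻ p, ENNReal.ofReal (κ p) * (∑' γ : Gam M, strip_fn β c ψ (act γ p)) * F p ∂(hyp m) =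
      Nat.card (strip_Cls M hC) *
        ∫⁻ p, ENNReal.ofReal (κ p) * (∑' w : Orb M, ψ (1 / uval w p)) * F p ∂(hyp m) := by
    rw [← lintegral_const_mul' _ _ hNt]
    refine lintegral_congr_ae ?_
    filter_upwards [ae_hyp_mem] with p hp
    rw [strip_sum hD hLF hM hC hN ψ hp]
    ring
  have h3 : ∫⁻ p, strip_fn β c ψ p * F p ∂(hyp m) =
      K0 * ∫⁻ u in Set.Ioi (0 : ℝ), ψ u * cellInt β c F u * ENNReal.ofReal ((u ^ (m + 2))⁻¹) := by
    have e1 : ∫⁻ p, strip_fn β c ψ p * F p ∂(hyp m) =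
        ∫⁻ p in strip_cell β c, ψ (hgt p) * F p ∂(hyp m) := by
      rw [← lintegral_indicator hcm]
      refine lintegral_congr fun p => ?_
      unfold strip_fn
      by_cases hp : p ∈ strip_cell β c
      · rw [Set.indicator_of_mem hp, Set.indicator_of_mem hp]
      · rw [Set.indicator_of_notMem hp, Set.indicator_of_notMem hp, zero_mul]
    rw [e1]
    have e2 := hKint (fun p => ψ (hgt p) * F p) (hψm.mul hF)
    have e3 : ∫⁻ p in strip_cell β c, ψ (hgt p) * F p ∂(hyp m) = K0 * ∫⁻ u in Set.Ioi (0 : ℝ),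
        cellInt β c (fun p => ψ (hgt p) * F p) u * ENNReal.ofReal ((u ^ (m + 2))⁻¹) := e2
    rw [e3]
    congr 1
    refine lintegral_congr fun u => ?_
    have e4 : cellInt β c (fun p => ψ (hgt p) * F p) u = ψ u * cellInt β c F u := by
      unfold cellInt
      have hcu : Measurable fun x : (Fin (2 * m) → ℝ) × ℝ => F (cellpt β c x u) :=
        hF.comp (strip_continuous_cellpt β c u).measurable
      rw [← lintegral_const_mul _ hcu]
      refine lintegral_congr fun x => ?_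
      show ψ (hgt (cellpt β c x u)) * F (cellpt β c x u) = _
      rw [hgt_cellpt]
    rw [e4]
  rw [h3, h2] at h1
  rw [mul_assoc, ← h1, ← mul_assoc, ENNReal.inv_mul_cancel hK0 hK1, one_mul]

end Pool.Agent.Helper19.Un
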